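import Mathlib

namespace Pool.Agent.Results.MP_14365a_gt.BetaN

open Topology Filter Set

lemma isOpen_singleton_pure (n : ℕ) : IsOpen ({(pure n : Ultrafilter ℕ)} : Set (Ultrafilter ℕ)) := by
  have h := ultrafilter_isOpen_basic ({n} : Set ℕ)
  convert h using 1
  ext u
  constructor
  · intro hu
    have hu' : u = pure n := hu
    subst hu'
    change ({n} : Set ℕ) ∈ (pure n : Ultrafilter ℕ)
    simp
  · intro hu
    have hu' : ({n} : Set ℕ) ∈ u := hu
    have h1 : (u : Filter ℕ) ≤ ((pure n : Ultrafilter ℕ) : Filter ℕ) := by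
      change (u : Filter ℕ) ≤ (pure n : Filter ℕ)
      rw [Filter.le_pure_iff]; exact hu'
    exact Ultrafilter.coe_injective ((pure n : Ultrafilter ℕ).unique h1)

lemma mem_nhds_pure (n : ℕ) : 𝓝 (pure n : Ultrafilter ℕ) = pure (pure n) :=
  (isOpen_singleton_iff_nhds_eq_pure _).1 (isOpen_singleton_pure n)

open Classical in
/-- the function `1/(n+1)` on the isolated points, `0` on the remainder -/
noncomputable def hfun (u : Ultrafilter ℕ) : ℝ :=
  if h : ∃ n : ℕ, u = pure n then 1 / ((h.choose : ℝ) + 1) else 0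

lemma hfun_pure (n : ℕ) : hfun (pure n) = 1 / ((n : ℝ) + 1) := by
  have h : ∃ m : ℕ, (pure n : Ultrafilter ℕ) = pure m := ⟨n, rfl⟩
  unfold hfun
  rw [dif_pos h]
  have h1 : (pure n : Ultrafilter ℕ) = pure h.choose := h.choose_spec
  have h2 : n = h.choose := Ultrafilter.pure_injective h1
  rw [← h2]

lemma hfun_of_not (u : Ultrafilter ℕ) (h : ¬ ∃ n : ℕ, u = pure n) : hfun u = 0 := by
  unfold hfun; rw [dif_neg h]

lemma hfun_nonneg (u : Ultrafilter ℕ) : 0 ≤ hfun u := by
  by_cases h : ∃ n : ℕ, u = pure n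
  · obtain ⟨n, rfl⟩ := h
    rw [hfun_pure]; positivity
  · rw [hfun_of_not u h]

lemma hfun_ne_zero_iff (u : Ultrafilter ℕ) : hfun u ≠ 0 ↔ ∃ n : ℕ, u = pure n := by
  constructor
  · intro h; by_contra h'; exact h (hfun_of_not u h')
  · rintro ⟨n, rfl⟩; rw [hfun_pure]; positivity

lemma continuous_hfun : Continuous hfun := by
  rw [continuous_iff_continuousAt]
  intro u
  by_cases h : ∃ n : ℕ, u = pure n
  · obtain ⟨n, rfl⟩ := h
    unfold ContinuousAt
    rw [mem_nhds_pure]
    exact tendsto_pure_left.2 fun s hs => mem_of_mem_nhds hs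
  · rw [Metric.continuousAt_iff']
    intro ε hε
    obtain ⟨N, hN⟩ := exists_nat_one_div_lt hε
    have hmem : {k : ℕ | N ≤ k} ∈ u := by
      by_contra hc
      have hc' : {k : ℕ | N ≤ k}ᶜ ∈ u := Ultrafilter.compl_mem_iff_notMem.2 hc
      have hfin : ({k : ℕ | N ≤ k}ᶜ).Finite := by
        have : ({k : ℕ | N ≤ k}ᶜ) = {k | k < N} := by ext; simp
        rw [this]; exact Set.finite_lt_nat N
      obtain ⟨n, -, hn⟩ := Ultrafilter.eq_pure_of_finite_mem hfin hc'
      exact h ⟨n, hn⟩
    have hopen : {v : Ultrafilter ℕ | {k : ℕ | N ≤ k} ∈ v} ∈ 𝓝 u :=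
      (ultrafilter_isOpen_basic _).mem_nhds hmem
    filter_upwards [hopen] with v hv
    rw [hfun_of_not u h, Real.dist_eq, sub_zero, abs_of_nonneg (hfun_nonneg v)]
    by_cases hv' : ∃ n : ℕ, v = pure n
    · obtain ⟨n, rfl⟩ := hv'
      have hn : N ≤ n := by simpa using hv
      rw [hfun_pure]
      refine lt_of_le_of_lt ?_ hN
      apply one_div_le_one_div_of_le (by positivity)
      have : (N : ℝ) ≤ n := by exact_mod_cast hn
      linarith
    · rw [hfun_of_not v hv']; exact hε

lemma dense_cozero : Dense {u : Ultrafilter ℕ | hfun u ≠ 0} := by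
  have h : DenseRange (pure : ℕ → Ultrafilter ℕ) := denseRange_pure
  refine Dense.mono ?_ h
  rintro u ⟨n, rfl⟩
  exact (hfun_ne_zero_iff _).2 ⟨n, rfl⟩

lemma mem_TDoublePrime (f : Ultrafilter ℕ → ℝ) :
    ∃ h : C(Ultrafilter ℕ, ℝ), Dense {x | h x ≠ 0} ∧ ContinuousOn f {x | h x ≠ 0} := by
  refine ⟨⟨hfun, continuous_hfun⟩, dense_cozero, ?_⟩
  intro u hu
  obtain ⟨n, rfl⟩ := (hfun_ne_zero_iff u).1 hu
  apply ContinuousAt.continuousWithinAt
  unfold ContinuousAt
  rw [mem_nhds_pure]
  exact tendsto_pure_left.2 fun s hs => mem_of_mem_nhds hs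

lemma not_perfectlyNormal : ¬ ∀ s : Set (Ultrafilter ℕ), IsClosed s →
    ∃ h : C(Ultrafilter ℕ, ℝ), s = {x | h x = 0} := by
  intro hP
  set H : Ultrafilter ℕ := hyperfilter ℕ with hH
  -- two nonprincipal ultrafilters
  obtain ⟨h, hh⟩ := hP {H} isClosed_singleton
  have hHtop : (H : Filter ℕ) ≤ atTop := by
    rw [← Nat.cofinite_eq_atTop]; exact hyperfilter_le_cofinite
  have hH0 : h H = 0 := by
    have : H ∈ ({H} : Set (Ultrafilter ℕ)) := rfl
    rw [hh] at this; exact this
  have hlim : ∀ v : Ultrafilter ℕ, Tendsto (fun n : ℕ => h (pure n)) v (𝓝 (h v)) := by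
    intro v
    exact (h.continuous.tendsto v).comp (Ultrafilter.tendsto_pure_self v)
  have hfreq : ∀ k : ℕ, ∃ᶠ n in atTop, |h (pure n : Ultrafilter ℕ)| < 1 / ((k : ℝ) + 1) := by
    intro k
    have h1 : ∀ᶠ n in (H : Filter ℕ), |h (pure n : Ultrafilter ℕ)| < 1 / ((k : ℝ) + 1) := by
      have h2 := hlim H
      rw [hH0, Metric.tendsto_nhds] at h2
      have h3 := h2 (1 / ((k : ℝ) + 1)) (by positivity)
      simpa [Real.dist_eq] using h3
    exact h1.frequently.filter_mono hHtop
  obtain ⟨φ, hφ, hφ'⟩ := extraction_forall_of_frequently hfreq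
  have key : ∀ w : Ultrafilter ℕ, (w : Filter ℕ) ≤ atTop → w.map φ = H := by
    intro w hw
    have h1 : Tendsto (fun n : ℕ => h (pure (φ n) : Ultrafilter ℕ)) w (𝓝 0) := by
      have h2 : Tendsto (fun n : ℕ => (1 : ℝ) / ((n : ℝ) + 1)) w (𝓝 0) :=
        tendsto_one_div_add_atTop_nhds_zero_nat.mono_left hw
      exact squeeze_zero_norm (fun n => (by simpa using (hφ' n).le)) h2
    have h2 : Tendsto (fun n : ℕ => h (pure (φ n) : Ultrafilter ℕ)) w (𝓝 (h (w.map φ))) := by
      have h3 := hlim (w.map φ)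
      rw [Ultrafilter.coe_map, tendsto_map'_iff] at h3
      exact h3
    have h3 : h (w.map φ) = 0 := tendsto_nhds_unique h2 h1
    have h4 : w.map φ ∈ {x | h x = 0} := h3
    rw [← hh] at h4
    exact h4
  have hev : ((H.map (fun n => 2 * n) : Ultrafilter ℕ) : Filter ℕ) ≤ atTop := by
    rw [Ultrafilter.coe_map]
    have : Tendsto (fun n : ℕ => 2 * n) atTop atTop :=
      tendsto_id.const_mul_atTop' (by norm_num)
    exact (Filter.map_mono hHtop).trans this
  have hod : ((H.map (fun n => 2 * n + 1) : Ultrafilter ℕ) : Filter ℕ) ≤ atTop := by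
    rw [Ultrafilter.coe_map]
    have : Tendsto (fun n : ℕ => 2 * n + 1) atTop atTop :=
      tendsto_atTop_mono (fun n => (by omega : n ≤ 2 * n + 1)) tendsto_id
    exact (Filter.map_mono hHtop).trans this
  have h1 := key _ hev
  have h2 := key _ hod
  have h3 : (H.map (fun n => 2 * n)).map φ = (H.map (fun n => 2 * n + 1)).map φ := h1.trans h2.symm
  have hA : φ '' {n | Even n} ∈ (H.map (fun n => 2 * n)).map φ := by
    rw [Ultrafilter.mem_map, Ultrafilter.mem_map]
    have : (fun n => 2 * n) ⁻¹' (φ ⁻¹' (φ '' {n | Even n})) = univ := by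
      ext n; simp only [mem_preimage, mem_univ, iff_true]
      exact ⟨2 * n, ⟨n, by ring⟩, rfl⟩
    rw [this]; exact univ_mem
  rw [h3, Ultrafilter.mem_map, Ultrafilter.mem_map] at hA
  have : (fun n => 2 * n + 1) ⁻¹' (φ ⁻¹' (φ '' {n | Even n})) = ∅ := by
    ext n
    simp only [mem_preimage, mem_image, mem_ofPred_eq, mem_empty_iff_false, iff_false]
    rintro ⟨m, hm, hm'⟩
    have := hφ.injective hm'
    subst this
    rcases hm with ⟨k, hk⟩
    omega
  rw [this] at hA
  exact Ultrafilter.empty_notMem hA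

/-- There is a compact Hausdorff space `X` (the proof takes `X = βℕ`) which is not perfectly normal
(not every closed subset is the zero set of a continuous real function) and in which every real
function that is continuous on some dense open subset is continuous on some dense cozero set, and
conversely; that is, `T'(X) = T''(X)`. -/
theorem result : ∃ (X : Type) (_ : TopologicalSpace X),
    CompactSpace X ∧ T2Space X ∧
    (¬ ∀ s : Set X, IsClosed s → ∃ h : C(X, ℝ), s = {x | h x = 0}) ∧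
    {f : X → ℝ | ∃ U : Set X, IsOpen U ∧ Dense U ∧ ContinuousOn f U} =
      {f : X → ℝ | ∃ h : C(X, ℝ), Dense {x | h x ≠ 0} ∧ ContinuousOn f {x | h x ≠ 0}} := by
  refine ⟨Ultrafilter ℕ, inferInstance, inferInstance, inferInstance, not_perfectlyNormal, ?_⟩
  ext f
  constructor
  · intro _; exact mem_TDoublePrime f
  · rintro ⟨h, hh, hf⟩
    exact ⟨_, isOpen_ne_fun h.continuous continuous_const, hh, hf⟩

end Pool.Agent.Results.MP_14365a_gt.BetaN
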